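import Pool.Agent.H415.LLP.Final

/-!
# The law of large permanents for ergodic actions of the semigroup of pairs of natural numbers
-/

set_option autoImplicit false

open MeasureTheory Filter Topology

namespace Pool.Agent.Results.MP_79d3d7_an.LawOfLargePermanents

open Pool.Agent.H415.LLP

/-- For every ergodic pair of commuting measure preserving maps `T₁`, `T₂` of a probability space and
every measurable `f` whose logarithm is essentially bounded, the permanental means of the matrices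
`f (T₁^i T₂^j ω)`, `0 ≤ i, j < n`, converge for almost every `ω` to the scaling mean of `f`. -/
theorem result {Ω : Type*} [MeasurableSpace Ω] (μ : Measure Ω) [IsProbabilityMeasure μ]
    (T₁ T₂ : Ω → Ω) (hT₁ : MeasurePreserving T₁ μ μ) (hT₂ : MeasurePreserving T₂ μ μ)
    (comm : ∀ ω, T₁ (T₂ ω) = T₂ (T₁ ω))
    (erg : ∀ A, MeasurableSet A → T₁ ⁻¹' A = A → T₂ ⁻¹' A = A → μ A = 0 ∨ μ A = 1)
    (f : Ω → ℝ) (hf : Measurable f)
    (hlog : ∃ C : ℝ, ∀ᵐ ω ∂μ, 0 < f ω ∧ |Real.log (f ω)| ≤ C) :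
    smeanAE μ T₁ T₂ f = smean μ T₁ T₂ f ∧ smean μ T₁ T₂ f ≠ ⊤ ∧
      ∀ᵐ ω ∂μ, Tendsto
        (fun n : ℕ => pmean (Matrix.of fun i j : Fin n => f (T₁^[(i : ℕ)] (T₂^[(j : ℕ)] ω))))
        atTop (𝓝 (smean μ T₁ T₂ f).toReal) :=
  llp hT₁ hT₂ comm erg hf hlog

end Pool.Agent.Results.MP_79d3d7_an.LawOfLargePermanents
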